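import Pool.Agent.H985.Par.StmPar
import Pool.Agent.H985.KP.Typ2

/-!
# Typical polynomials, uniformly in a thin set of primes (task TYPV of helper985)
-/

set_option autoImplicit false

open scoped Classical
open Finset Polynomial

namespace Pool.Agent.H627.Par

open Pool.Agent.H985.Par (mass GoodV S_typV)
open Pool.Agent.H985.Chow (MD)
open Pool.Agent.H985.KP (S_typ2 Good2 exists_prod)
open Pool.Agent.H694.Typ (Mn mem_Mn card_Mn Irn mem_Irn card_dvd q_ge)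

section
variable {K : Type} [Field K] [Fintype K]

/-- the primes in `R` of degree at most `d` -/
noncomputable def Rn (R : Set K[X]) (d : ℕ) : Finset K[X] :=
  ((range (d + 1)).biUnion fun j => Irn K j).filter (· ∈ R)

theorem mem_Rn {R : Set K[X]} {d : ℕ} {P : K[X]} :
    P ∈ Rn R d ↔ P ∈ R ∧ P.Monic ∧ Irreducible P ∧ P.natDegree ≤ d := by
  unfold Rn
  rw [mem_filter, mem_biUnion]
  constructor
  · rintro ⟨⟨j, hj, hP⟩, hR⟩
    obtain ⟨h1, h2, h3⟩ := mem_Irn.1 hP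
    exact ⟨hR, h1, h3, by rw [h2]; have := mem_range.1 hj; omega⟩
  · rintro ⟨hR, h1, h2, h3⟩
    exact ⟨⟨P.natDegree, mem_range.2 (by omega), mem_Irn.2 ⟨h1, rfl, h2⟩⟩, hR⟩

theorem mass_eq (R : Set K[X]) (d : ℕ) :
    mass R d = ∑ P ∈ Rn R d, (P.natDegree : ℝ) / (Fintype.card K : ℝ) ^ P.natDegree := by
  unfold mass
  have e : R ∩ {P : K[X] | P.Monic ∧ Irreducible P ∧ P.natDegree ≤ d} = (Rn R d : Set K[X]) := by
    ext P
    rw [mem_coe, mem_Rn]
    exact Iff.rfl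
  rw [e]
  exact finsum_mem_coe_finset _ _

/-- the sum of the degrees of the prime divisors in `R` -/
noncomputable def lam (R : Set K[X]) (d : ℕ) (b : K[X]) : ℕ :=
  ∑ P ∈ (Rn R d).filter (fun P => P ∣ b), P.natDegree

theorem sum_lam (R : Set K[X]) (d : ℕ) :
    ∑ b ∈ Mn K d, (lam R d b : ℝ) = (Fintype.card K : ℝ) ^ d * mass R d := by
  have hq := q_ge (k := K)
  have e1 : ∀ b, (lam R d b : ℝ) = ∑ P ∈ Rn R d, if P ∣ b then (P.natDegree : ℝ) else 0 := by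
    intro b
    rw [lam, sum_filter]
    push_cast
    exact sum_congr rfl fun P _ => by split_ifs <;> simp
  simp_rw [e1]
  rw [sum_comm, mass_eq, mul_sum]
  refine sum_congr rfl fun P hP => ?_
  obtain ⟨-, h1, -, h3⟩ := mem_Rn.1 hP
  rw [← sum_filter, sum_const, nsmul_eq_mul, card_dvd h1 h3, Nat.cast_pow,
    pow_sub₀ _ (by positivity) h3]
  field_simp

theorem markov {R : Set K[X]} {d : ℕ} {θ κ : ℝ} (hκ : 0 < κ) (hd : 1 ≤ d) (hR : mass R d ≤ θ * d) :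
    (((Mn K d).filter (fun b => κ * d < (lam R d b : ℝ))).card : ℝ) ≤
      θ / κ * (Fintype.card K : ℝ) ^ d := by
  have hq := q_ge (k := K)
  have hd' : (0 : ℝ) < d := by exact_mod_cast hd
  have hqd : (0 : ℝ) < (Fintype.card K : ℝ) ^ d := by positivity
  have h1 : (((Mn K d).filter (fun b => κ * d < (lam R d b : ℝ))).card : ℝ) * (κ * d) ≤
      (Fintype.card K : ℝ) ^ d * (θ * d) := by
    calc (((Mn K d).filter (fun b => κ * d < (lam R d b : ℝ))).card : ℝ) * (κ * d)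
        = ∑ b ∈ (Mn K d).filter (fun b => κ * d < (lam R d b : ℝ)), κ * d := by
          rw [sum_const, nsmul_eq_mul]
      _ ≤ ∑ b ∈ (Mn K d).filter (fun b => κ * d < (lam R d b : ℝ)), (lam R d b : ℝ) :=
          sum_le_sum fun b hb => (mem_filter.1 hb).2.le
      _ ≤ ∑ b ∈ Mn K d, (lam R d b : ℝ) :=
          sum_le_sum_of_subset_of_nonneg (filter_subset _ _) fun b _ _ => Nat.cast_nonneg _
      _ = (Fintype.card K : ℝ) ^ d * mass R d := sum_lam R d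
      _ ≤ _ := mul_le_mul_of_nonneg_left hR hqd.le
  have h2 : θ / κ * (Fintype.card K : ℝ) ^ d * (κ * d) = (Fintype.card K : ℝ) ^ d * (θ * d) := by
    field_simp
  rw [← h2] at h1
  exact le_of_mul_le_mul_right h1 (mul_pos hκ hd')

/-- from `Good2` to `GoodV` -/
theorem good {R : Set K[X]} {d E₀ : ℕ} {b : K[X]} (hb : b.Monic) (hbd : b.natDegree = d)
    {δ₀ κ κ' : ℝ} (h : Good2 1 δ₀ E₀ d b) (hl : (lam R d b : ℝ) ≤ κ' * d)
    (h1 : κ' ≤ δ₀ / 2) (hδ : 0 ≤ δ₀) (h2 : (E₀ : ℝ) + κ' * d ≤ κ * d) : GoodV R (δ₀ / 2) κ d b := by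
  obtain ⟨e, g1, g2, rfl, he, hg1, hg2, hcop, hsq, -, heE, hlo, hhi⟩ := h
  have hd0 : (0 : ℝ) ≤ d := Nat.cast_nonneg d
  obtain ⟨T1, hT1, rfl⟩ := exists_prod hg1 (hsq.of_mul_left)
  obtain ⟨T2, hT2, rfl⟩ := exists_prod hg2 (hsq.of_mul_right)
  set A1 : K[X] := ∏ P ∈ T1 with P ∉ R, P with hA1
  set A2 : K[X] := ∏ P ∈ T2 with P ∉ R, P with hA2
  set C1 : K[X] := ∏ P ∈ T1 with P ∈ R, P with hC1
  set C2 : K[X] := ∏ P ∈ T2 with P ∈ R, P with hC2
  have e1 : ∏ P ∈ T1, P = C1 * A1 := (prod_filter_mul_prod_filter_not _ _ _).symm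
  have e2 : ∏ P ∈ T2, P = C2 * A2 := (prod_filter_mul_prod_filter_not _ _ _).symm
  have mA1 : A1.Monic := monic_prod_of_monic _ _ fun P hP => (hT1 P (mem_filter.1 hP).1).1
  have mA2 : A2.Monic := monic_prod_of_monic _ _ fun P hP => (hT2 P (mem_filter.1 hP).1).1
  have mC1 : C1.Monic := monic_prod_of_monic _ _ fun P hP => (hT1 P (mem_filter.1 hP).1).1
  have mC2 : C2.Monic := monic_prod_of_monic _ _ fun P hP => (hT2 P (mem_filter.1 hP).1).1
  have hprod : (∏ P ∈ T1, P) * ∏ P ∈ T2, P = (C1 * C2) * (A1 * A2) := by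
    rw [e1, e2]; ring
  rw [hprod] at hsq hcop
  obtain ⟨hrel, hsqC, hsqA⟩ := squarefree_mul_iff.1 hsq
  -- the degree which is lost
  have hlost : (C1 * C2).natDegree ≤ lam R d (e * ((∏ P ∈ T1, P) * ∏ P ∈ T2, P)) := by
    have hdisj : Disjoint (T1.filter (· ∈ R)) (T2.filter (· ∈ R)) := by
      rw [disjoint_left]
      intro P hP1 hP2
      have i1 := (hT1 P (mem_filter.1 hP1).1).2
      have d1 : P ∣ C1 := dvd_prod_of_mem _ hP1
      have d2 : P ∣ C2 := dvd_prod_of_mem _ hP2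
      exact i1.not_isUnit (hsqC P (mul_dvd_mul d1 d2))
    rw [mC1.natDegree_mul mC2, natDegree_prod_of_monic _ _ fun P hP => (hT1 P (mem_filter.1 hP).1).1,
      natDegree_prod_of_monic _ _ fun P hP => (hT2 P (mem_filter.1 hP).1).1, ← sum_union hdisj, lam]
    apply sum_le_sum_of_subset
    intro P hP
    have key : P ∣ (∏ P ∈ T1, P) * ∏ P ∈ T2, P ∧ P ∈ R ∧ P.Monic ∧ Irreducible P := by
      rcases mem_union.1 hP with h | h
      · have h3 := mem_filter.1 h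
        exact ⟨(dvd_prod_of_mem _ h3.1).mul_right _, h3.2, hT1 P h3.1⟩
      · have h3 := mem_filter.1 h
        exact ⟨(dvd_prod_of_mem _ h3.1).mul_left _, h3.2, hT2 P h3.1⟩
    have hdv := key.1.mul_left e
    refine mem_filter.2 ⟨mem_Rn.2 ⟨key.2.1, key.2.2.1, key.2.2.2, ?_⟩, hdv⟩
    have := natDegree_le_of_dvd hdv hb.ne_zero
    omega
  have hlost' : ((C1.natDegree : ℝ)) + C2.natDegree ≤ κ' * d := by
    have h3 : ((C1 * C2).natDegree : ℝ) ≤ κ' * d := (Nat.cast_le.2 hlost).trans hl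
    rw [mC1.natDegree_mul mC2] at h3
    push_cast at h3
    exact h3
  have hc1 : (0 : ℝ) ≤ C1.natDegree := Nat.cast_nonneg _
  have hc2 : (0 : ℝ) ≤ C2.natDegree := Nat.cast_nonneg _
  have hdA : ((C1.natDegree : ℝ)) + A1.natDegree = ((∏ P ∈ T1, P).natDegree : ℝ) := by
    rw [e1, mC1.natDegree_mul mA1]
    push_cast
    ring
  refine ⟨e * (C1 * C2), A1, A2, ?_, he.mul (mC1.mul mC2), mA1, mA2, ?_, hsqA, ?_, ?_, ?_, ?_⟩
  · rw [hprod]; ring
  · exact (IsCoprime.of_mul_right_right hcop).mul_left hrel.isCoprime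
  · intro P hP hPm hPi hdv
    rcases (hPi.prime.dvd_or_dvd hdv) with h | h
    · obtain ⟨Q, hQ, hPQ⟩ := (hPi.prime.dvd_finsetProd_iff _).1 h
      have h3 := mem_filter.1 hQ
      have h4 : P = Q := eq_of_monic_of_associated hPm (hT1 Q h3.1).1
        (hPi.associated_of_dvd (hT1 Q h3.1).2 hPQ)
      exact h3.2 (h4 ▸ hP)
    · obtain ⟨Q, hQ, hPQ⟩ := (hPi.prime.dvd_finsetProd_iff _).1 h
      have h3 := mem_filter.1 hQ
      have h4 : P = Q := eq_of_monic_of_associated hPm (hT2 Q h3.1).1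
        (hPi.associated_of_dvd (hT2 Q h3.1).2 hPQ)
      exact h3.2 (h4 ▸ hP)
  · rw [he.natDegree_mul (mC1.mul mC2), mC1.natDegree_mul mC2]
    push_cast
    have : (e.natDegree : ℝ) ≤ E₀ := by exact_mod_cast heE
    linarith
  · have h5 : κ' * d ≤ δ₀ / 2 * d := mul_le_mul_of_nonneg_right h1 hd0
    linarith
  · have h5 : 0 ≤ δ₀ / 2 * d := by positivity
    linarith

end

theorem typV (h : S_typ2) : S_typV := by
  intro K _ _ ε hε
  obtain ⟨δ₀, E₀, hδ₀, d₁, hd₁⟩ := h K 1 one_ne_zero (ε / 2) (by positivity)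
  refine ⟨δ₀ / 2, by positivity, fun κ hκ => ?_⟩
  set κ' : ℝ := min κ δ₀ / 2 with hκ'
  have hκ'0 : 0 < κ' := by positivity
  have hκ'1 : κ' ≤ κ / 2 := by
    rw [hκ']
    linarith [min_le_left κ δ₀]
  have hκ'2 : κ' ≤ δ₀ / 2 := by
    rw [hκ']
    linarith [min_le_right κ δ₀]
  refine ⟨κ' * (ε / 2), by positivity, max (max 1 d₁) ⌈2 * (E₀ : ℝ) / κ⌉₊, fun d hd R hR => ?_⟩
  have hd1 : 1 ≤ d := ((le_max_left _ _).trans (le_max_left _ _)).trans hd
  have hd2 : d₁ ≤ d := ((le_max_right _ _).trans (le_max_left _ _)).trans hd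
  have hd3 : 2 * (E₀ : ℝ) / κ ≤ d :=
    (Nat.le_ceil _).trans (by exact_mod_cast (le_max_right _ _).trans hd)
  have hd4 : (E₀ : ℝ) ≤ κ / 2 * d := by
    rw [div_le_iff₀ hκ] at hd3
    linarith
  have hd0 : (0 : ℝ) ≤ d := Nat.cast_nonneg d
  have hsub : (MD K d ∩ {b | ¬ GoodV R (δ₀ / 2) κ d b}) ⊆ (MD K d ∩ {b | ¬ Good2 1 δ₀ E₀ d b}) ∪
      (((Mn K d).filter (fun b => κ' * d < (lam R d b : ℝ)) : Finset K[X]) : Set K[X]) := by
    rintro b ⟨⟨hbm, hbd⟩, hbG⟩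
    by_cases hl : κ' * d < (lam R d b : ℝ)
    · exact Or.inr (mem_filter.2 ⟨mem_Mn.2 ⟨hbm, hbd⟩, hl⟩)
    · refine Or.inl ⟨⟨hbm, hbd⟩, fun hG => hbG ?_⟩
      refine good hbm hbd hG (not_lt.1 hl) hκ'2 hδ₀.le ?_
      have : κ' * d ≤ κ / 2 * d := mul_le_mul_of_nonneg_right hκ'1 hd0
      linarith
  have hfin : (MD K d ∩ {b | ¬ Good2 1 δ₀ E₀ d b}).Finite := by
    apply (Finset.finite_toSet (Mn K d)).subset
    rintro b ⟨⟨hbm, hbd⟩, -⟩
    exact mem_Mn.2 ⟨hbm, hbd⟩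
  have h1 := Set.ncard_le_ncard hsub (hfin.union (Finset.finite_toSet _))
  have h2 := h1.trans (Set.ncard_union_le _ _)
  rw [Set.ncard_coe_finset] at h2
  have h3 := hd₁ d hd2
  have h4 := markov (K := K) hκ'0 hd1 hR
  have h5 : κ' * (ε / 2) / κ' = ε / 2 := by field_simp
  rw [h5] at h4
  have h6 : ((MD K d ∩ {b | ¬ GoodV R (δ₀ / 2) κ d b}).ncard : ℝ) ≤
      ((MD K d ∩ {b | ¬ Good2 1 δ₀ E₀ d b}).ncard : ℝ) +
      (((Mn K d).filter (fun b => κ' * d < (lam R d b : ℝ))).card : ℝ) := by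
    exact_mod_cast h2
  linarith

end Pool.Agent.H627.Par
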